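import Mathlib

/-!
# A `2 × 2` matrix all of whose best approximation vectors lie in a plane

For `Θ = R + (1/5) (1, g)ᵀ (1, g)` with `g = (√5 - 1) / 2` and any integer matrix `R`, all best
approximation vectors (with respect to the sup-norms) are of the form `(x, R x)`.
-/

namespace Pool.Agent.Results.MP_a0fa86_nt.PlanarBestApproximations

/-- an integer vector as a real vector -/
def toReal (x : Fin 2 → ℤ) : Fin 2 → ℝ := fun i => (x i : ℝ)

/-- `|x|_∞` for `z = (x, y)` -/
noncomputable def size (z : (Fin 2 → ℤ) × (Fin 2 → ℤ)) : ℝ := ‖toReal z.1‖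

/-- `|Θ x - y|_∞` for `z = (x, y)` -/
noncomputable def err (Θ : Matrix (Fin 2) (Fin 2) ℝ) (z : (Fin 2 → ℤ) × (Fin 2 → ℤ)) : ℝ :=
  ‖Θ.mulVec (toReal z.1) - toReal z.2‖

/-- condition (G): `Θ x` is not an integer vector for integer `x ≠ 0` -/
def CondG (Θ : Matrix (Fin 2) (Fin 2) ℝ) : Prop :=
  ∀ x : Fin 2 → ℤ, x ≠ 0 → ∀ y : Fin 2 → ℤ, Θ.mulVec (toReal x) ≠ toReal y

/-- best approximation vectors: `x ≠ 0` and the only integer points `(x', y')` with
`|x'|_∞ ≤ |x|_∞` and `|Θ x' - y'|_∞ ≤ |Θ x - y|_∞` are `0` and `± (x, y)` -/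
def IsBest (Θ : Matrix (Fin 2) (Fin 2) ℝ) (z : (Fin 2 → ℤ) × (Fin 2 → ℤ)) : Prop :=
  z.1 ≠ 0 ∧ ∀ w : (Fin 2 → ℤ) × (Fin 2 → ℤ), size w ≤ size z → err Θ w ≤ err Θ z →
    w = 0 ∨ w = z ∨ w = -z

/-- `z` lists the best approximation vectors up to sign, in the order of increasing `|x|_∞` -/
def IsListing (Θ : Matrix (Fin 2) (Fin 2) ℝ) (z : ℕ → (Fin 2 → ℤ) × (Fin 2 → ℤ)) : Prop :=
  (∀ ν, IsBest Θ (z ν)) ∧ StrictMono (fun ν => size (z ν)) ∧
    ∀ w, IsBest Θ w → ∃ ν, w = z ν ∨ w = -z ν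

/-- `d(ν₀)`, the dimension of the real span of the `z_ν` with `ν ≥ ν₀` -/
noncomputable def dimTail (z : ℕ → (Fin 2 → ℤ) × (Fin 2 → ℤ)) (ν₀ : ℕ) : ℕ :=
  Module.finrank ℝ (Submodule.span ℝ
    ((fun ν => (toReal (z ν).1, toReal (z ν).2)) '' {ν | ν₀ ≤ ν}))

/-! ### The golden ratio -/

/-- `g = (√5 - 1) / 2` -/
noncomputable def g : ℝ := (Real.sqrt 5 - 1) / 2

theorem g_sq : g * g = 1 - g := by
  have h : Real.sqrt 5 * Real.sqrt 5 = 5 := Real.mul_self_sqrt (by norm_num)
  unfold g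
  nlinarith

theorem g_lo : 0.618 < g := by
  have h : (2.236 : ℝ) < Real.sqrt 5 := Real.lt_sqrt_of_sq_lt (by norm_num)
  unfold g
  linarith

theorem g_hi : g < 0.6181 := by
  have h : Real.sqrt 5 < 2.2361 := (Real.sqrt_lt' (by norm_num)).2 (by norm_num)
  unfold g
  linarith

theorem form_ne (p q : ℤ) (h : p ≠ 0 ∨ q ≠ 0) : p * p - p * q - q * q ≠ 0 := by
  intro h0
  -- descent modulo 2
  have key : ∀ n : ℕ, ∀ p q : ℤ, p.natAbs + q.natAbs ≤ n → p * p - p * q - q * q = 0 →
      p = 0 ∧ q = 0 := by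
    intro n
    induction n with
    | zero => intro p q hn _; omega
    | succ n ih =>
      intro p q hn h0
      have hp : p % 2 = 0 ∧ q % 2 = 0 := by
        have h1 : (p * p - p * q - q * q) % 2 = 0 := by rw [h0]; rfl
        rcases Int.emod_two_eq_zero_or_one p with hp | hp <;>
          rcases Int.emod_two_eq_zero_or_one q with hq | hq
        · exact ⟨hp, hq⟩
        all_goals
          exfalso
          rw [Int.sub_emod, Int.sub_emod (p * p), Int.mul_emod p p, Int.mul_emod p q,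
            Int.mul_emod q q, hp, hq] at h1
          norm_num at h1
      obtain ⟨p', rfl⟩ : ∃ p', p = 2 * p' := ⟨p / 2, by omega⟩
      obtain ⟨q', rfl⟩ : ∃ q', q = 2 * q' := ⟨q / 2, by omega⟩
      by_cases hz : p' = 0 ∧ q' = 0
      · obtain ⟨rfl, rfl⟩ := hz
        simp
      · have h2 : p' * p' - p' * q' - q' * q' = 0 := by nlinarith
        have h3 := ih p' q' (by omega) h2
        exact absurd h3 hz
  have := key _ p q le_rfl h0
  tauto

/-- `|p + g q| (|p| + (1 + g) |q|) ≥ 1` -/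
theorem bad (p q : ℤ) (h : p ≠ 0 ∨ q ≠ 0) :
    1 ≤ |(p : ℝ) + g * q| * (|(p : ℝ)| + (1 + g) * |(q : ℝ)|) := by
  have h1 : (1 : ℝ) ≤ |((p * p - p * q - q * q : ℤ) : ℝ)| := by
    have := Int.one_le_abs (form_ne p q h)
    exact_mod_cast this
  have h2 : ((p * p - p * q - q * q : ℤ) : ℝ) = ((p : ℝ) + g * q) * (p - (1 + g) * q) := by
    push_cast
    linear_combination (q : ℝ) * q * g_sq
  rw [h2, abs_mul] at h1
  refine h1.trans (mul_le_mul_of_nonneg_left ?_ (abs_nonneg _))
  refine (abs_sub _ _).trans ?_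
  rw [abs_mul, abs_of_pos (by linarith [g_lo] : (0 : ℝ) < 1 + g)]

/-! ### The matrices -/

/-- `(1/5) (1, g)ᵀ (1, g)` -/
noncomputable def base : Matrix (Fin 2) (Fin 2) ℝ := !![1 / 5, g / 5; g / 5, g * g / 5]

/-- the sum of the above matrix and an integer matrix -/
noncomputable def mat (R : Matrix (Fin 2) (Fin 2) ℤ) : Matrix (Fin 2) (Fin 2) ℝ :=
  base + R.map (fun n : ℤ => (n : ℝ))

theorem toReal_sub (x y : Fin 2 → ℤ) : toReal (x - y) = toReal x - toReal y := by
  funext i; simp [toReal]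

theorem toReal_eq_zero {x : Fin 2 → ℤ} (h : toReal x = 0) : x = 0 := by
  funext i
  have := congrFun h i
  simpa [toReal] using this

theorem map_mulVec (R : Matrix (Fin 2) (Fin 2) ℤ) (x : Fin 2 → ℤ) :
    (R.map (fun n : ℤ => (n : ℝ))).mulVec (toReal x) = toReal (R.mulVec x) := by
  funext i
  simp [Matrix.mulVec, dotProduct, toReal, Fin.sum_univ_two]

theorem base_mulVec (v : Fin 2 → ℝ) :
    base.mulVec v = ![(v 0 + g * v 1) / 5, g * ((v 0 + g * v 1) / 5)] := by
  funext i
  fin_cases i <;> simp [base, Matrix.mulVec, dotProduct, Fin.sum_univ_two] <;> ring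

theorem norm_two (v : Fin 2 → ℝ) : ‖v‖ = max |v 0| |v 1| := by
  apply le_antisymm
  · rw [pi_norm_le_iff_of_nonneg (le_max_of_le_left (abs_nonneg _))]
    intro i
    fin_cases i
    · exact le_max_left _ _
    · exact le_max_right _ _
  · exact max_le (norm_le_pi_norm v 0) (norm_le_pi_norm v 1)

/-- the error in terms of `y' = y - R x` -/
theorem err_mat (R : Matrix (Fin 2) (Fin 2) ℤ) (z : (Fin 2 → ℤ) × (Fin 2 → ℤ)) :
    err (mat R) z = max |((z.1 0 : ℝ) + g * z.1 1) / 5 - ((z.2 - R.mulVec z.1) 0 : ℤ)|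
      |g * (((z.1 0 : ℝ) + g * z.1 1) / 5) - ((z.2 - R.mulVec z.1) 1 : ℤ)| := by
  unfold err mat
  rw [Matrix.add_mulVec, map_mulVec, base_mulVec]
  have e : ![(toReal z.1 0 + g * toReal z.1 1) / 5, g * ((toReal z.1 0 + g * toReal z.1 1) / 5)] +
      toReal (R.mulVec z.1) - toReal z.2 =
      ![(toReal z.1 0 + g * toReal z.1 1) / 5, g * ((toReal z.1 0 + g * toReal z.1 1) / 5)] -
        toReal (z.2 - R.mulVec z.1) := by
    rw [toReal_sub]
    abel
  rw [e, norm_two]
  rfl

/-- the error of the points in the plane `y = R x` -/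
theorem err_plane (R : Matrix (Fin 2) (Fin 2) ℤ) (x : Fin 2 → ℤ) :
    err (mat R) (x, R.mulVec x) = |(x 0 : ℝ) + g * x 1| / 5 := by
  rw [err_mat]
  simp only [sub_self, Pi.zero_apply, Int.cast_zero, sub_zero]
  rw [abs_mul, abs_div, abs_of_pos (by norm_num : (0 : ℝ) < 5),
    abs_of_pos (by linarith [g_lo] : (0 : ℝ) < g)]
  apply max_eq_left
  have h := g_hi
  have h2 : 0 ≤ |(x 0 : ℝ) + g * x 1| / 5 := by positivity
  nlinarith

theorem size_eq (z : (Fin 2 → ℤ) × (Fin 2 → ℤ)) :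
    size z = max |(z.1 0 : ℝ)| |(z.1 1 : ℝ)| := norm_two _

theorem one_le_size {z : (Fin 2 → ℤ) × (Fin 2 → ℤ)} (h : z.1 ≠ 0) : 1 ≤ size z := by
  rw [size_eq, le_max_iff]
  by_contra hcon
  push Not at hcon
  apply h
  funext i
  have e : ∀ a : ℤ, |(a : ℝ)| < 1 → a = 0 := by
    intro a ha
    have : |a| < 1 := by exact_mod_cast ha
    exact Int.abs_lt_one_iff.1 this
  fin_cases i
  · exact e _ hcon.1
  · exact e _ hcon.2

/-- the points off the plane have a large error -/
theorem off_plane (R : Matrix (Fin 2) (Fin 2) ℤ) (z : (Fin 2 → ℤ) × (Fin 2 → ℤ))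
    (hz : z.2 ≠ R.mulVec z.1) : 1 / (5 * (size z + 1)) < err (mat R) z := by
  by_contra hcon
  push Not at hcon
  rw [err_mat, max_le_iff] at hcon
  obtain ⟨h1, h2⟩ := hcon
  set M := size z with hM
  set s : ℝ := ((z.1 0 : ℝ) + g * z.1 1) / 5 with hs
  set a : ℤ := (z.2 - R.mulVec z.1) 0 with ha
  set b : ℤ := (z.2 - R.mulVec z.1) 1 with hb
  have hM0 : 0 ≤ M := norm_nonneg _
  have hab : -b ≠ 0 ∨ a ≠ 0 := by
    by_contra hcon
    push Not at hcon
    apply hz
    funext i
    have e : (z.2 - R.mulVec z.1) i = 0 := by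
      fin_cases i
      · exact hcon.2
      · have := hcon.1
        exact neg_eq_zero.1 this
    have e2 : z.2 i - (R.mulVec z.1) i = 0 := e
    linarith
  have h0 := bad (-b) a hab
  have g1 := g_lo
  have g2 := g_hi
  have gsq := g_sq
  have hx0 : |(z.1 0 : ℝ)| ≤ M := by rw [hM, size_eq]; exact le_max_left _ _
  have hx1 : |(z.1 1 : ℝ)| ≤ M := by rw [hM, size_eq]; exact le_max_right _ _
  have hs1 : |s| ≤ (1 + g) * M / 5 := by
    rw [hs, abs_div, abs_of_pos (by norm_num : (0 : ℝ) < 5)]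
    apply div_le_div_of_nonneg_right _ (by norm_num)
    refine (abs_add_le _ _).trans ?_
    rw [abs_mul, abs_of_pos (by linarith : (0 : ℝ) < g)]
    nlinarith
  set δ : ℝ := 1 / (5 * (M + 1)) with hδ
  have hδ0 : 0 < δ := by rw [hδ]; positivity
  have hδM : δ * (M + 1) = 1 / 5 := by rw [hδ]; field_simp
  have hδ1 : δ ≤ (M + 1) / 5 := by nlinarith
  have ha1 : |(a : ℝ)| ≤ (1 + g) * (M + 1) / 5 := by
    have e : (a : ℝ) = s - (s - a) := by ring
    rw [e]
    refine (abs_sub _ _).trans ?_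
    have : δ ≤ 1 / 5 := by nlinarith
    nlinarith
  have hb1 : |(b : ℝ)| ≤ (M + 1) / 5 := by
    have e : (b : ℝ) = g * s - (g * s - b) := by ring
    rw [e]
    refine (abs_sub _ _).trans ?_
    rw [abs_mul, abs_of_pos (by linarith : (0 : ℝ) < g)]
    have h3 : δ ≤ 1 / 5 := by nlinarith
    have h4 : g * |s| ≤ g * ((1 + g) * M / 5) := mul_le_mul_of_nonneg_left hs1 (by linarith)
    have h5 : g * ((1 + g) * M / 5) = M / 5 := by
      linear_combination (M / 5) * gsq
    linarith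
  have hab2 : |((-b : ℤ) : ℝ) + g * a| ≤ (1 + g) * δ := by
    have e : ((-b : ℤ) : ℝ) + g * a = (g * s - b) - g * (s - a) := by push_cast; ring
    rw [e]
    refine (abs_sub _ _).trans ?_
    rw [abs_mul g, abs_of_pos (by linarith : (0 : ℝ) < g)]
    nlinarith
  have hsum : |((-b : ℤ) : ℝ)| + (1 + g) * |(a : ℝ)| ≤ 3.62 * ((M + 1) / 5) := by
    have e : |((-b : ℤ) : ℝ)| = |(b : ℝ)| := by push_cast; exact abs_neg _
    rw [e]
    have h6 : (1 + g) * |(a : ℝ)| ≤ (1 + g) * ((1 + g) * (M + 1) / 5) :=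
      mul_le_mul_of_nonneg_left ha1 (by linarith)
    have h7 : (1 + g) * ((1 + g) * (M + 1) / 5) = (2 + g) * ((M + 1) / 5) := by
      linear_combination ((M + 1) / 5) * gsq
    nlinarith
  have h8 : |((-b : ℤ) : ℝ) + g * a| * (|((-b : ℤ) : ℝ)| + (1 + g) * |(a : ℝ)|) ≤
      ((1 + g) * δ) * (3.62 * ((M + 1) / 5)) :=
    mul_le_mul hab2 hsum (by positivity) (by positivity)
  have h9 : ((1 + g) * δ) * (3.62 * ((M + 1) / 5)) = (1 + g) * 3.62 / 5 * (δ * (M + 1)) := by ring
  rw [h9, hδM] at h8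
  linarith

/-- the lower bound for all errors -/
theorem err_lower (R : Matrix (Fin 2) (Fin 2) ℤ) (z : (Fin 2 → ℤ) × (Fin 2 → ℤ)) (hz : z.1 ≠ 0) :
    1 / (15 * (size z + 1)) ≤ err (mat R) z := by
  have hs0 : 0 ≤ size z := norm_nonneg _
  by_cases h : z.2 = R.mulVec z.1
  · obtain ⟨x, y⟩ := z
    simp only at h hz
    subst h
    rw [err_plane]
    have h0 : x 0 ≠ 0 ∨ x 1 ≠ 0 := by
      by_contra hcon
      push Not at hcon
      apply hz
      funext i
      fin_cases i
      · exact hcon.1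
      · exact hcon.2
    have h1 := bad (x 0) (x 1) h0
    set M := size (x, R.mulVec x) with hM
    have hx0 : |(x 0 : ℝ)| ≤ M := by rw [hM, size_eq]; exact le_max_left _ _
    have hx1 : |(x 1 : ℝ)| ≤ M := by rw [hM, size_eq]; exact le_max_right _ _
    have g1 := g_lo
    have g2 := g_hi
    have h2 : |(x 0 : ℝ)| + (1 + g) * |(x 1 : ℝ)| ≤ 3 * (M + 1) := by nlinarith
    have h3 : 1 ≤ |(x 0 : ℝ) + g * x 1| * (3 * (M + 1)) :=
      h1.trans (mul_le_mul_of_nonneg_left h2 (abs_nonneg _))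
    rw [div_le_div_iff₀ (by positivity) (by norm_num)]
    nlinarith
  · refine le_trans ?_ (off_plane R z h).le
    apply one_div_le_one_div_of_le (by positivity)
    nlinarith

/-- Dirichlet's theorem in the plane -/
theorem dirichlet (R : Matrix (Fin 2) (Fin 2) ℤ) (n : ℕ) (hn : 0 < n) :
    ∃ z : (Fin 2 → ℤ) × (Fin 2 → ℤ), z.1 ≠ 0 ∧ z.2 = R.mulVec z.1 ∧ size z ≤ n ∧
      err (mat R) z ≤ 1 / (5 * ((n : ℝ) + 1)) := by
  obtain ⟨j, k, hk, hkn, h⟩ := Real.exists_int_int_abs_mul_sub_le g hn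
  have g1 := g_lo
  have g2 := g_hi
  have hn1 : (1 : ℝ) ≤ n := by exact_mod_cast hn
  have hk1 : (1 : ℝ) ≤ k := by exact_mod_cast hk
  have hkn1 : (k : ℝ) ≤ n := by exact_mod_cast hkn
  have hd : 1 / ((n : ℝ) + 1) ≤ 1 / 2 := one_div_le_one_div_of_le (by norm_num) (by linarith)
  obtain ⟨h1, h2⟩ := abs_le.1 h
  have hj1 : (j : ℝ) < n + 1 := by nlinarith
  have hj0 : (-1 : ℝ) < j := by nlinarith
  have hj1' : j < (n : ℤ) + 1 := by exact_mod_cast hj1
  have hj0' : (-1 : ℤ) < j := by exact_mod_cast hj0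
  refine ⟨(![-j, k], R.mulVec ![-j, k]), ?_, rfl, ?_, ?_⟩
  · intro h0
    have := congrFun h0 1
    simp at this
    omega
  · rw [size_eq]
    simp only [Matrix.cons_val_zero, Matrix.cons_val_one]
    apply max_le
    · have : |-j| ≤ (n : ℤ) := by rw [abs_neg, abs_of_nonneg (by omega)]; omega
      exact_mod_cast this
    · rw [abs_of_nonneg (by linarith)]
      exact hkn1
  · rw [err_plane]
    simp only [Matrix.cons_val_zero, Matrix.cons_val_one]
    have e : ((-j : ℤ) : ℝ) + g * k = k * g - j := by push_cast; ring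
    rw [e]
    calc |(k : ℝ) * g - j| / 5 ≤ (1 / ((n : ℝ) + 1)) / 5 :=
          div_le_div_of_nonneg_right h (by norm_num)
      _ = 1 / (5 * ((n : ℝ) + 1)) := by field_simp

/-- the size is a natural number -/
theorem size_nat (z : (Fin 2 → ℤ) × (Fin 2 → ℤ)) : ∃ n : ℕ, size z = n := by
  refine ⟨max (z.1 0).natAbs (z.1 1).natAbs, ?_⟩
  rw [size_eq]
  push_cast
  rw [Nat.cast_natAbs, Nat.cast_natAbs]
  push_cast
  rfl

theorem neg_fst (z : (Fin 2 → ℤ) × (Fin 2 → ℤ)) : (-z).1 = -z.1 := rfl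

/-- a best approximation vector is in the plane -/
theorem best_plane (R : Matrix (Fin 2) (Fin 2) ℤ) (z : (Fin 2 → ℤ) × (Fin 2 → ℤ))
    (hz : IsBest (mat R) z) : z.2 = R.mulVec z.1 := by
  by_contra hcon
  obtain ⟨n, hn⟩ := size_nat z
  have hs := one_le_size hz.1
  have hn0 : 0 < n := by
    have : (1 : ℝ) ≤ n := hn ▸ hs
    exact_mod_cast this
  obtain ⟨w, hw0, hw1, hw2, hw3⟩ := dirichlet R n hn0
  have h := off_plane R z hcon
  rw [hn] at h
  rcases hz.2 w (hn ▸ hw2) (hw3.trans h.le) with h1 | h1 | h1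
  · exact hw0 (by rw [h1]; rfl)
  · rw [h1] at hw1
    exact hcon hw1
  · rw [h1] at hw1
    apply hcon
    have e : (-z).2 = -z.2 := rfl
    rw [e, neg_fst, Matrix.mulVec_neg] at hw1
    exact neg_injective hw1

theorem irr (p q : ℤ) (h : (p : ℝ) + g * q = 0) : p = 0 ∧ q = 0 := by
  by_contra hcon
  have h1 := bad p q (by tauto)
  rw [h, abs_zero, zero_mul] at h1
  linarith

/-- among the points `(x, R x)` with `0 < |x| ≤ n` there is one with the smallest error; it is a
best approximation vector -/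
theorem exists_best (R : Matrix (Fin 2) (Fin 2) ℤ) (n : ℕ) (hn : 0 < n) :
    ∃ z : (Fin 2 → ℤ) × (Fin 2 → ℤ), IsBest (mat R) z ∧ size z ≤ n ∧
      err (mat R) z ≤ 1 / (5 * ((n : ℝ) + 1)) := by
  classical
  -- the finite set of candidates
  let box : Finset (Fin 2 → ℤ) :=
    (Fintype.piFinset fun _ : Fin 2 => Finset.Icc (-(n : ℤ)) n).filter fun x => x ≠ 0
  have hbox : ∀ x : Fin 2 → ℤ, x ∈ box ↔ x ≠ 0 ∧ size (x, R.mulVec x) ≤ n := by
    intro x
    rw [size_eq]
    simp only [box, Finset.mem_filter, Fintype.mem_piFinset, Finset.mem_Icc, Fin.forall_fin_two,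
      max_le_iff, abs_le]
    constructor
    · rintro ⟨⟨⟨h1, h2⟩, h3, h4⟩, h5⟩
      exact ⟨h5, ⟨by exact_mod_cast h1, by exact_mod_cast h2⟩, by exact_mod_cast h3,
        by exact_mod_cast h4⟩
    · rintro ⟨h5, ⟨h1, h2⟩, h3, h4⟩
      exact ⟨⟨⟨by exact_mod_cast h1, by exact_mod_cast h2⟩, by exact_mod_cast h3,
        by exact_mod_cast h4⟩, h5⟩
  obtain ⟨w, hw0, hw1, hw2, hw3⟩ := dirichlet R n hn
  have hwe : w = (w.1, R.mulVec w.1) := Prod.ext rfl hw1
  have hne : box.Nonempty := ⟨w.1, (hbox _).2 ⟨hw0, by rw [← hwe]; exact hw2⟩⟩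
  obtain ⟨x, hx, hmin⟩ := Finset.exists_min_image box (fun x => err (mat R) (x, R.mulVec x)) hne
  have hx' := (hbox x).1 hx
  have hle : err (mat R) (x, R.mulVec x) ≤ 1 / (5 * ((n : ℝ) + 1)) := by
    have h := hmin w.1 ((hbox _).2 ⟨hw0, by rw [← hwe]; exact hw2⟩)
    rw [← hwe] at h
    exact h.trans hw3
  refine ⟨(x, R.mulVec x), ⟨hx'.1, ?_⟩, hx'.2, hle⟩
  intro v hv1 hv2
  by_cases hv : v.2 = R.mulVec v.1
  · obtain ⟨u, y⟩ := v
    simp only at hv
    subst hv
    by_cases hu : u = 0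
    · left
      subst hu
      simp
    · right
      have hub : u ∈ box := (hbox u).2 ⟨hu, by
        have e : size (u, R.mulVec u) ≤ size (x, R.mulVec x) := hv1
        exact e.trans hx'.2⟩
      have h1 := hmin u hub
      have h2 : err (mat R) (u, R.mulVec u) = err (mat R) (x, R.mulVec x) := le_antisymm hv2 h1
      rw [err_plane, err_plane] at h2
      have h3 : |(u 0 : ℝ) + g * u 1| = |(x 0 : ℝ) + g * x 1| := by linarith
      rcases abs_eq_abs.1 h3 with h4 | h4
      · left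
        obtain ⟨e0, e1⟩ := irr (u 0 - x 0) (u 1 - x 1) (by push_cast; linarith)
        have : u = x := by
          funext i
          fin_cases i
          · show u 0 = x 0
            omega
          · show u 1 = x 1
            omega
        rw [this]
      · right
        obtain ⟨e0, e1⟩ := irr (u 0 + x 0) (u 1 + x 1) (by push_cast; linarith)
        have : u = -x := by
          funext i
          fin_cases i
          · show u 0 = -x 0
            omega
          · show u 1 = -x 1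
            omega
        rw [this, Matrix.mulVec_neg]
        rfl
  · exfalso
    have h1 := off_plane R v hv
    have h2 : 1 / (5 * ((n : ℝ) + 1)) ≤ 1 / (5 * (size v + 1)) := by
      have h0 : 0 ≤ size v := norm_nonneg _
      apply one_div_le_one_div_of_le (by positivity)
      have := hv1.trans hx'.2
      linarith
    have h3 : err (mat R) v ≤ 1 / (5 * ((n : ℝ) + 1)) := hv2.trans hle
    linarith

/-- the sizes of the best approximation vectors -/
def sizes (R : Matrix (Fin 2) (Fin 2) ℤ) : Set ℕ := {n | ∃ z, IsBest (mat R) z ∧ size z = n}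

theorem sizes_infinite (R : Matrix (Fin 2) (Fin 2) ℤ) : (sizes R).Infinite := by
  apply Set.infinite_of_not_bddAbove
  rintro ⟨B, hB⟩
  obtain ⟨z, hz, -, h2⟩ := exists_best R (4 * (B + 1)) (by omega)
  obtain ⟨m, hm⟩ := size_nat z
  have h3 : m ≤ B := hB ⟨z, hz, hm⟩
  have h4 := (err_lower R z hz.1).trans h2
  rw [hm] at h4
  have h5 : (m : ℝ) ≤ B := by exact_mod_cast h3
  have hm0 : (0 : ℝ) ≤ m := Nat.cast_nonneg m
  have hB0 : (0 : ℝ) ≤ B := Nat.cast_nonneg B
  rw [div_le_div_iff₀ (by positivity) (by positivity)] at h4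
  push_cast at h4
  nlinarith

theorem exists_listing (R : Matrix (Fin 2) (Fin 2) ℤ) : ∃ z, IsListing (mat R) z := by
  classical
  have hinf := sizes_infinite R
  have hmem : ∀ ν, Nat.nth (· ∈ sizes R) ν ∈ sizes R := fun ν => Nat.nth_mem_of_infinite hinf ν
  choose z hz1 hz2 using hmem
  refine ⟨z, hz1, ?_, ?_⟩
  · intro a b hab
    show size (z a) < size (z b)
    rw [hz2, hz2]
    exact_mod_cast Nat.nth_strictMono hinf hab
  · intro w hw
    obtain ⟨m, hm⟩ := size_nat w
    have hms : m ∈ sizes R := ⟨w, hw, hm⟩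
    refine ⟨Nat.count (· ∈ sizes R) m, ?_⟩
    have h1 : Nat.nth (· ∈ sizes R) (Nat.count (· ∈ sizes R) m) = m := Nat.nth_count hms
    set ν := Nat.count (· ∈ sizes R) m with hν
    have h2 : size (z ν) = size w := by rw [hz2, h1, hm]
    rcases le_total (err (mat R) w) (err (mat R) (z ν)) with h | h
    · rcases (hz1 ν).2 w h2.ge h with h3 | h3 | h3
      · exact absurd (by rw [h3]; rfl) hw.1
      · exact Or.inl h3
      · exact Or.inr h3
    · rcases hw.2 (z ν) h2.le h with h3 | h3 | h3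
      · exact absurd (by rw [h3]; rfl) (hz1 ν).1
      · exact Or.inl h3.symm
      · exact Or.inr (by rw [h3, neg_neg])

theorem condG (R : Matrix (Fin 2) (Fin 2) ℤ) : CondG (mat R) := by
  intro x hx y h
  have h1 := err_lower R (x, y) hx
  have h2 : err (mat R) (x, y) = 0 := by
    unfold err
    simp only
    rw [h, sub_self, norm_zero]
  rw [h2] at h1
  have h3 : 0 ≤ size (x, y) := norm_nonneg _
  have h4 : (0 : ℝ) < 1 / (15 * (size (x, y) + 1)) := by positivity
  linarith

theorem dim_two (R : Matrix (Fin 2) (Fin 2) ℤ) (z : ℕ → (Fin 2 → ℤ) × (Fin 2 → ℤ))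
    (hz : IsListing (mat R) z) (ν₀ : ℕ) : dimTail z ν₀ = 2 := by
  obtain ⟨h1, h2, h3⟩ := hz
  unfold dimTail
  apply le_antisymm
  · -- all vectors are in the range of `x ↦ (x, R x)`
    let L : (Fin 2 → ℝ) →ₗ[ℝ] (Fin 2 → ℝ) × (Fin 2 → ℝ) :=
      LinearMap.prod LinearMap.id (Matrix.mulVecLin (R.map (fun n : ℤ => (n : ℝ))))
    have hsub : Submodule.span ℝ
        ((fun ν => (toReal (z ν).1, toReal (z ν).2)) '' {ν | ν₀ ≤ ν}) ≤ LinearMap.range L := by
      rw [Submodule.span_le]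
      rintro _ ⟨ν, _, rfl⟩
      refine ⟨toReal (z ν).1, ?_⟩
      refine Prod.ext rfl ?_
      show (R.map (fun n : ℤ => (n : ℝ))).mulVec (toReal (z ν).1) = toReal (z ν).2
      rw [map_mulVec, ← best_plane R _ (h1 ν)]
    calc Module.finrank ℝ (Submodule.span ℝ
          ((fun ν => (toReal (z ν).1, toReal (z ν).2)) '' {ν | ν₀ ≤ ν}))
        ≤ Module.finrank ℝ (LinearMap.range L) := Submodule.finrank_mono hsub
      _ ≤ Module.finrank ℝ (Fin 2 → ℝ) := LinearMap.finrank_range_le L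
      _ = 2 := by simp
  · -- two consecutive vectors are independent
    let f : ℕ → (Fin 2 → ℝ) × (Fin 2 → ℝ) := fun ν => (toReal (z ν).1, toReal (z ν).2)
    have hlin : LinearIndependent ℝ ![f ν₀, f (ν₀ + 1)] := by
      rw [LinearIndependent.pair_iff]
      intro s t hst
      -- errors
      have e1 : s • toReal (z ν₀).1 + t • toReal (z (ν₀ + 1)).1 = 0 := congrArg Prod.fst hst
      have e2 : s • toReal (z ν₀).2 + t • toReal (z (ν₀ + 1)).2 = 0 := congrArg Prod.snd hst
      have hsize : |s| * size (z ν₀) = |t| * size (z (ν₀ + 1)) := by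
        have : s • toReal (z ν₀).1 = -(t • toReal (z (ν₀ + 1)).1) := eq_neg_of_add_eq_zero_left e1
        have h4 := congrArg norm this
        rw [norm_neg, norm_smul, norm_smul, Real.norm_eq_abs, Real.norm_eq_abs] at h4
        exact h4
      have herr : |s| * err (mat R) (z ν₀) = |t| * err (mat R) (z (ν₀ + 1)) := by
        have h5 : s • ((mat R).mulVec (toReal (z ν₀).1) - toReal (z ν₀).2) =
            -(t • ((mat R).mulVec (toReal (z (ν₀ + 1)).1) - toReal (z (ν₀ + 1)).2)) := by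
          apply eq_neg_of_add_eq_zero_left
          rw [smul_sub, smul_sub, ← Matrix.mulVec_smul, ← Matrix.mulVec_smul]
          have : (mat R).mulVec (s • toReal (z ν₀).1) - s • toReal (z ν₀).2 +
              ((mat R).mulVec (t • toReal (z (ν₀ + 1)).1) - t • toReal (z (ν₀ + 1)).2) =
              (mat R).mulVec (s • toReal (z ν₀).1 + t • toReal (z (ν₀ + 1)).1) -
                (s • toReal (z ν₀).2 + t • toReal (z (ν₀ + 1)).2) := by
            rw [Matrix.mulVec_add]
            abel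
          rw [this, e1, e2, Matrix.mulVec_zero, sub_zero]
        have h6 := congrArg norm h5
        rw [norm_neg, norm_smul, norm_smul, Real.norm_eq_abs, Real.norm_eq_abs] at h6
        exact h6
      have hlt : size (z ν₀) < size (z (ν₀ + 1)) := h2 (Nat.lt_succ_self ν₀)
      have hs1 := one_le_size (h1 ν₀).1
      -- the error decreases
      have hdec : err (mat R) (z (ν₀ + 1)) < err (mat R) (z ν₀) := by
        by_contra hcon
        push Not at hcon
        rcases (h1 (ν₀ + 1)).2 (z ν₀) hlt.le hcon with h | h | h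
        · exact (h1 ν₀).1 (by rw [h]; rfl)
        · rw [h] at hlt
          exact lt_irrefl _ hlt
        · rw [h] at hlt
          have : size (-z (ν₀ + 1)) = size (z (ν₀ + 1)) := by
            rw [size_eq, size_eq]
            simp
          rw [this] at hlt
          exact lt_irrefl _ hlt
      have hpos : 0 < err (mat R) (z (ν₀ + 1)) := by
        have h4 := err_lower R (z (ν₀ + 1)) (h1 (ν₀ + 1)).1
        have h5 : 0 ≤ size (z (ν₀ + 1)) := norm_nonneg _
        have h6 : (0 : ℝ) < 1 / (15 * (size (z (ν₀ + 1)) + 1)) := by positivity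
        linarith
      have ht : |t| = 0 := by
        by_contra ht
        have ht0 : 0 < |t| := lt_of_le_of_ne (abs_nonneg _) (Ne.symm ht)
        have a1 : |t| < |s| := by
          by_contra hcon
          push Not at hcon
          have : |s| * size (z ν₀) < |t| * size (z (ν₀ + 1)) := by
            calc |s| * size (z ν₀) ≤ |t| * size (z ν₀) :=
                  mul_le_mul_of_nonneg_right hcon (by linarith)
              _ < |t| * size (z (ν₀ + 1)) := mul_lt_mul_of_pos_left hlt ht0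
          linarith
        have a2 : |t| * err (mat R) (z (ν₀ + 1)) < |s| * err (mat R) (z ν₀) := by
          calc |t| * err (mat R) (z (ν₀ + 1)) < |s| * err (mat R) (z (ν₀ + 1)) :=
                mul_lt_mul_of_pos_right a1 hpos
            _ ≤ |s| * err (mat R) (z ν₀) := mul_le_mul_of_nonneg_left hdec.le (abs_nonneg _)
        linarith
      have hs : |s| = 0 := by
        rw [ht, zero_mul] at hsize
        rcases mul_eq_zero.1 hsize with h | h
        · exact h
        · exfalso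
          linarith
      exact ⟨abs_eq_zero.1 hs, abs_eq_zero.1 ht⟩
    have hsub : Submodule.span ℝ (Set.range ![f ν₀, f (ν₀ + 1)]) ≤
        Submodule.span ℝ ((fun ν => (toReal (z ν).1, toReal (z ν).2)) '' {ν | ν₀ ≤ ν}) := by
      apply Submodule.span_mono
      rintro _ ⟨i, rfl⟩
      fin_cases i
      · exact ⟨ν₀, (le_refl ν₀ : ν₀ ≤ ν₀), rfl⟩
      · exact ⟨ν₀ + 1, (Nat.le_succ ν₀ : ν₀ ≤ ν₀ + 1), rfl⟩
    have h7 : Module.finrank ℝ (Submodule.span ℝ (Set.range ![f ν₀, f (ν₀ + 1)])) = 2 := by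
      rw [finrank_span_eq_card hlin]
      simp
    calc 2 = Module.finrank ℝ (Submodule.span ℝ (Set.range ![f ν₀, f (ν₀ + 1)])) := h7.symm
      _ ≤ _ := Submodule.finrank_mono hsub

/-- **There are matrices `Θ` satisfying (G) all of whose best approximation vectors lie in a
plane.** (1) There is a real `2 × 2` matrix `Θ` with `det Θ = 0` which satisfies condition (G), whose
best approximation vectors can be listed as an infinite sequence, and with `d(ν₀) = 2` for all `ν₀`
(for every such listing). (2) There is also such a matrix with `det Θ ≠ 0`. -/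
theorem result :
    (∃ Θ : Matrix (Fin 2) (Fin 2) ℝ, Θ.det = 0 ∧ CondG Θ ∧ (∃ z, IsListing Θ z) ∧
      ∀ z, IsListing Θ z → ∀ ν₀, dimTail z ν₀ = 2) ∧
    (∃ Θ : Matrix (Fin 2) (Fin 2) ℝ, Θ.det ≠ 0 ∧ CondG Θ ∧ (∃ z, IsListing Θ z) ∧
      ∀ z, IsListing Θ z → ∀ ν₀, dimTail z ν₀ = 2) := by
  refine ⟨⟨mat 0, ?_, condG 0, exists_listing 0, dim_two 0⟩,
    ⟨mat 1, ?_, condG 1, exists_listing 1, dim_two 1⟩⟩
  · rw [Matrix.det_fin_two]
    simp [mat, base]
    ring
  · rw [Matrix.det_fin_two]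
    simp [mat, base]
    have h1 := g_lo
    have h2 := g_sq
    intro h3
    nlinarith

end Pool.Agent.Results.MP_a0fa86_nt.PlanarBestApproximations
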